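import Pool.Agent.KDT.StmtsK

set_option autoImplicit false

/-!
# Squad KDT, row LVD: values of the two translates
-/

namespace Pool.Agent.KDT.H78

open Polynomial NumberField H58Q Pool.Agent.SZT

theorem eval_ne {K : Type} [Field K] {f A : K[X]} {b : K} (h : IsCoprime A f) (hb : f.IsRoot b) :
    A.eval b ≠ 0 := by
  intro h0
  obtain ⟨u, w, huw⟩ := h
  have h1 := congrArg (Polynomial.eval b) huw
  rw [Polynomial.eval_add, Polynomial.eval_mul, Polynomial.eval_mul, h0, hb.eq_zero, mul_zero,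
    mul_zero, add_zero, Polynomial.eval_one] at h1
  exact zero_ne_one h1

theorem lvd (h1 : GddStatement) (h2 : LvaStatement) (h3 : LvbStatement) : LvdStatement := by
  intro K _ f A B U W a b M k2 hf h5 hsq hspl hG ha hb hab htau hgen
  obtain ⟨A', B', V, A'', B'', V', t1, g1, t2, g2⟩ :=
    h1 K f A B a b k2 hf h5 hsq hspl hG ha hb hab htau
  obtain ⟨U', W', gen1, r1⟩ := h2 K f A B A' B' V U W a M k2 hf h5 hsq ha hG g1 t1 hgen
  have l1 := h3 K f A B A' B' V U W U' W' a M k2 hf h5 hsq ha hG g1 t1 hgen gen1 r1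
  obtain ⟨U'', W'', gen2, r2⟩ := h2 K f A' B' A'' B'' V' U' W' b M k2 hf h5 hsq hb g1 g2 t2 gen1
  have l2 := h3 K f A' B' A'' B'' V' U' W' U'' W'' b M k2 hf h5 hsq hb g1 g2 t2 gen1 gen2 r2
  refine ⟨A', B', V, U', W', A'', B'', V', U'', W'', ⟨t1, g1, gen1, l1⟩, t2, g2, gen2, ?_⟩
  intro v
  have e0 : A.eval a ≠ 0 := eval_ne hG.cop ha
  have e1 : A.eval b ≠ 0 := eval_ne hG.cop hb
  have e2 : A'.eval b ≠ 0 := eval_ne g1.cop hb
  have e3 := t1.evb b hb (Ne.symm hab) e1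
  have e4 : tau f a b (kum f A B) ≠ 0 := htau a b ha hb hab
  have e5 : a - b ≠ 0 := sub_ne_zero.2 hab
  have e6 : Real.log (v (A'.eval b)) + Real.log (v (A.eval a))
      = Real.log (v (a - b)) + Real.log (v (tau f a b (kum f A B))) := by
    rw [← Real.log_mul (v.ne_zero e2) (v.ne_zero e0), ← Real.log_mul (v.ne_zero e5)
      (v.ne_zero e4), ← map_mul, ← map_mul, e3]
  rw [l2 v, l1 v]
  linarith

end Pool.Agent.KDT.H78
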